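import Pool.Agent.Lib_helper40.SN.Lower5

/-!
The exponential growth rate of the number of sona graphs exists and is at least five.
-/

namespace Pool.Agent.Results.MP_6d4ef7_co.GrowthRateAtLeastFive

open Filter Topology Pool.Agent.Lib_helper40.SN

/-- The limit `γ` of `s(n)^(1/n)` exists (as a real number), is at least `5`, and every single value
of `s` gives a lower bound for it: `s(n) ≤ 16 (n - 1) γ ^ (n - 1)`. -/
theorem result : ∃ γ : ℝ,
    Tendsto (fun n : ℕ => (sona n : ℝ) ^ (1 / (n : ℝ))) atTop (𝓝 γ) ∧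
    5 ≤ γ ∧
    ∀ n : ℕ, 2 ≤ n → (sona n : ℝ) ≤ 16 * ((n : ℝ) - 1) * γ ^ (n - 1) := by
  obtain ⟨γ, h1, h2, h3⟩ := exists_limit
  exact ⟨γ, h1, growth_ge_five h2, h3⟩

end Pool.Agent.Results.MP_6d4ef7_co.GrowthRateAtLeastFive
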